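import Mathlib.Topology.Separation.Hausdorff
import Mathlib.Topology.Constructions
import Mathlib.Order.Filter.Ultrafilter.Basic
import Mathlib.Algebra.Group.Subgroup.Basic
import Mathlib.Algebra.Group.End
import Mathlib.Data.Finite.Sum
import Mathlib.Data.Finite.Prod
import Mathlib.Logic.Equiv.Fin.Basic

/-!
# Minimality of the pointwise topology on oligomorphic closed transformation monoids
-/

open Filter Topology

namespace Q202.MinTop

/-- The topology of pointwise convergence pulled back along `ρ`. -/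
@[reducible] def pw {S Ω : Type*} (ρ : S → Ω → Ω) : TopologicalSpace S :=
  TopologicalSpace.induced ρ (@Pi.topologicalSpace Ω (fun _ => Ω) (fun _ => ⊥))

theorem mem_nhds_pw {S Ω : Type*} (ρ : S → Ω → Ω) (x : S) (U : Set S) :
    U ∈ @nhds S (pw ρ) x ↔ ∃ F : Finset Ω, ∀ y : S, (∀ a ∈ F, ρ y a = ρ x a) → y ∈ U := by
  let _ : TopologicalSpace Ω := ⊥
  have : DiscreteTopology Ω := ⟨rfl⟩
  rw [pw, nhds_induced, mem_comap]
  constructor
  · rintro ⟨t, ht, htU⟩
    rw [nhds_pi, Filter.mem_pi] at ht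
    obtain ⟨I, hI, V, hV, hVt⟩ := ht
    refine ⟨hI.toFinset, fun y hy => htU (hVt ?_)⟩
    intro a ha
    rw [hy a (by simpa using ha)]
    exact mem_of_mem_nhds (hV a)
  · rintro ⟨F, hF⟩
    refine ⟨{f | ∀ a ∈ F, f a = ρ x a}, ?_, fun y hy => hF y hy⟩
    have : {f : Ω → Ω | ∀ a ∈ F, f a = ρ x a} = ⋂ a ∈ F, {f | f a = ρ x a} := by
      ext f; simp
    rw [this, Filter.biInter_finset_mem]
    intro a _
    have h1 : Tendsto (fun f : Ω → Ω => f a) (𝓝 (ρ x)) (𝓝 (ρ x a)) :=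
      (continuous_apply a).tendsto _
    have h2 : {ρ x a} ∈ 𝓝 (ρ x a) := by simp
    exact h1 h2

/-- A subgroup of the symmetric group is oligomorphic if it has finitely many orbits on
`n`-tuples for every `n`. -/
def Oligo {Ω : Type*} (G : Subgroup (Equiv.Perm Ω)) : Prop :=
  ∀ n : ℕ, ∃ s : Set (Fin n → Ω), s.Finite ∧ ∀ y : Fin n → Ω, ∃ x ∈ s, ∃ g ∈ G, ∀ i, g (x i) = y i

theorem Oligo.sum {Ω : Type*} {G : Subgroup (Equiv.Perm Ω)} (h : Oligo G) (n : ℕ) :
    ∃ s : Set (Fin n ⊕ Fin n → Ω), s.Finite ∧ ∀ y : Fin n ⊕ Fin n → Ω,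
      ∃ x ∈ s, ∃ g ∈ G, ∀ i, g (x i) = y i := by
  obtain ⟨s, hs, h⟩ := h (n + n)
  refine ⟨(fun x i => x (finSumFinEquiv i)) '' s, hs.image _, fun y => ?_⟩
  obtain ⟨x, hx, g, hg, hxy⟩ := h (fun i => y (finSumFinEquiv.symm i))
  refine ⟨_, ⟨x, hx, rfl⟩, g, hg, fun i => ?_⟩
  rw [hxy]; simp

section Core

variable {Ω S : Type*}

/-- The main combinatorial step. -/
theorem exists_limit {G : Subgroup (Equiv.Perm Ω)} (hG : Oligo G) (ρ : S → Ω → Ω)
    (U : Ultrafilter S) (e : ℕ → Ω) :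
    ∃ k j : ℕ → Ω, ∀ n, ∀ᶠ h in (U : Filter S), ∃ γ ∈ G, ∀ i < n,
      γ (ρ h (e i)) = k i ∧ γ (e i) = j i := by
  classical
  -- the orbit of the pair of tuples is eventually constant
  have h1 : ∀ n, ∃ x : Fin n ⊕ Fin n → Ω, ∀ᶠ h in (U : Filter S), ∃ g ∈ G,
      ∀ i : Fin n, g (x (Sum.inl i)) = ρ h (e i) ∧ g (x (Sum.inr i)) = e i := by
    intro n
    obtain ⟨s, hs, h⟩ := hG.sum n
    have h2 : (⋃ x ∈ s, {h : S | ∃ g ∈ G, ∀ i : Fin n, g (x (Sum.inl i)) = ρ h (e i) ∧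
        g (x (Sum.inr i)) = e i}) ∈ U := by
      refine Filter.mem_of_superset (Filter.univ_mem (f := (U : Filter S))) ?_
      intro t _
      simp only [Set.mem_iUnion]
      obtain ⟨x, hx, g, hg, hgx⟩ := h (Sum.elim (fun i => ρ t (e i)) (fun i => e i))
      exact ⟨x, hx, g, hg, fun i => ⟨hgx (Sum.inl i), hgx (Sum.inr i)⟩⟩
    rw [Ultrafilter.finite_biUnion_mem_iff hs] at h2
    obtain ⟨x, _, hx⟩ := h2
    exact ⟨x, hx⟩
  choose x hx using h1
  -- connecting group elements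
  have h2 : ∀ n, ∃ δ ∈ G, ∀ i : Fin n, δ (x (n + 1) (Sum.inl i.castSucc)) = x n (Sum.inl i) ∧
      δ (x (n + 1) (Sum.inr i.castSucc)) = x n (Sum.inr i) := by
    intro n
    obtain ⟨h, ⟨g, hg, hg'⟩, ⟨g2, hg2, hg2'⟩⟩ := ((hx n).and (hx (n + 1))).exists
    refine ⟨g⁻¹ * g2, G.mul_mem (G.inv_mem hg) hg2, fun i => ?_⟩
    have h3 := hg' i
    have h4 := hg2' i.castSucc
    constructor
    · rw [Equiv.Perm.mul_apply, Equiv.Perm.inv_eq_iff_eq, h4.1, h3.1]; rfl
    · rw [Equiv.Perm.mul_apply, Equiv.Perm.inv_eq_iff_eq, h4.2, h3.2]; rfl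
  choose δ hδ hδ' using h2
  let Γ : ℕ → Equiv.Perm Ω := fun n => Nat.rec 1 (fun n γ => γ * δ n) n
  have hΓs : ∀ n, Γ (n + 1) = Γ n * δ n := fun n => rfl
  have hΓ : ∀ n, Γ n ∈ G := by
    intro n
    induction n with
    | zero => exact G.one_mem
    | succ n ih => rw [hΓs]; exact G.mul_mem ih (hδ n)
  let k : ℕ → Ω := fun i => Γ (i + 1) (x (i + 1) (Sum.inl (Fin.last i)))
  let j : ℕ → Ω := fun i => Γ (i + 1) (x (i + 1) (Sum.inr (Fin.last i)))
  have hkj : ∀ n (i : Fin n), Γ n (x n (Sum.inl i)) = k i ∧ Γ n (x n (Sum.inr i)) = j i := by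
    intro n
    induction n with
    | zero => intro i; exact i.elim0
    | succ n ih =>
      intro i
      refine Fin.lastCases ?_ (fun i => ?_) i
      · exact ⟨rfl, rfl⟩
      · rw [hΓs, Equiv.Perm.mul_apply, Equiv.Perm.mul_apply, (hδ' n i).1, (hδ' n i).2]
        exact ih i
  refine ⟨k, j, fun n => ?_⟩
  filter_upwards [hx n]
  rintro h ⟨g, hg, hg'⟩
  refine ⟨Γ n * g⁻¹, G.mul_mem (hΓ n) (G.inv_mem hg), fun i hi => ?_⟩
  have h3 := hg' ⟨i, hi⟩
  have h4 := hkj n ⟨i, hi⟩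
  constructor
  · rw [Equiv.Perm.mul_apply, ← h3.1, ← h4.1]
    congr 1
    exact g.symm_apply_apply _
  · rw [Equiv.Perm.mul_apply, ← h3.2, ← h4.2]
    congr 1
    exact g.symm_apply_apply _

/-- **Core theorem.** Let `S` be a closed monoid of transformations of the countable set `Ω`
(given by the injective representation `ρ`) containing an oligomorphic permutation group.  Then
the topology of pointwise convergence is minimal among the Hausdorff semigroup topologies. -/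
theorem core [Countable Ω] {G : Subgroup (Equiv.Perm Ω)} (hG : Oligo G) (ρ : S → Ω → Ω)
    (hcl : ∀ f : Ω → Ω, (∀ F : Finset Ω, ∃ s, ∀ a ∈ F, ρ s a = f a) → ∃ s, ρ s = f)
    (m : S → S → S) (hm : ∀ s t a, ρ (m s t) a = ρ s (ρ t a))
    (hι : ∀ g ∈ G, ∃ s, ρ s = g)
    (τ : TopologicalSpace S) (hT2 : T2Space S) (hcont : Continuous fun p : S × S => m p.1 p.2)
    (hle : pw ρ ≤ τ) : τ = pw ρ := by
  classical
  refine le_antisymm ?_ hle
  apply le_of_nhds_le_nhds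
  intro f
  -- it suffices to treat evaluation at one point
  have main : ∀ a : Ω, {g : S | ρ g a = ρ f a} ∈ @nhds S τ f := by
    intro a
    rw [Filter.mem_iff_ultrafilter]
    intro U hU
    have : Nonempty Ω := ⟨a⟩
    obtain ⟨e, he⟩ := exists_surjective_nat Ω
    obtain ⟨k, j, hkj⟩ := exists_limit hG ρ U e
    let idx : Ω → ℕ := Function.surjInv he
    have hidx : ∀ b, e (idx b) = b := Function.surjInv_eq he
    -- property on finite sets
    have hfin : ∀ F : Finset Ω, ∀ᶠ h in (U : Filter S), ∃ γ ∈ G, ∀ b ∈ F,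
        γ (ρ h b) = k (idx b) ∧ γ b = j (idx b) := by
      intro F
      filter_upwards [hkj (F.sup idx + 1)]
      rintro h ⟨γ, hγ, hγ'⟩
      refine ⟨γ, hγ, fun b hb => ?_⟩
      have := hγ' (idx b) (Nat.lt_succ_of_le (Finset.le_sup hb))
      rw [hidx] at this
      exact this
    obtain ⟨κ, hκ⟩ := hcl (fun b => k (idx b)) (by
      intro F
      obtain ⟨h, γ, hγ, hγ'⟩ := (hfin F).exists
      obtain ⟨s, hs⟩ := hι γ hγ
      refine ⟨m s h, fun b hb => ?_⟩
      rw [hm, hs]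
      exact (hγ' b hb).1)
    obtain ⟨μ, hμ⟩ := hcl (fun b => j (idx b)) (by
      intro F
      obtain ⟨h, γ, hγ, hγ'⟩ := (hfin F).exists
      obtain ⟨s, hs⟩ := hι γ hγ
      refine ⟨s, fun b hb => ?_⟩
      rw [hs]
      exact (hγ' b hb).2)
    have hκμ : κ = m μ f := by
      by_contra hne
      obtain ⟨V, W, hV, hW, hκV, hμW, hVW⟩ := t2_separation hne
      have h1 : (fun p : S × S => m p.1 p.2) ⁻¹' W ∈ 𝓝 (μ, f) :=
        hcont.continuousAt.preimage_mem_nhds (hW.mem_nhds hμW)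
      rw [mem_nhds_prod_iff] at h1
      obtain ⟨V1, hV1, V2, hV2, hV12⟩ := h1
      have h2 : V ∈ @nhds S (pw ρ) κ := nhds_mono hle (hV.mem_nhds hκV)
      have h3 : V1 ∈ @nhds S (pw ρ) μ := nhds_mono hle hV1
      rw [mem_nhds_pw] at h2 h3
      obtain ⟨F2, hF2⟩ := h2
      obtain ⟨F3, hF3⟩ := h3
      obtain ⟨h, ⟨γ, hγ, hγ'⟩, hh⟩ := ((hfin (F2 ∪ F3)).and (hU hV2)).exists
      obtain ⟨s, hs⟩ := hι γ hγ
      have h4 : s ∈ V1 := hF3 s (fun b hb => by
        rw [hs, hμ]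
        exact (hγ' b (Finset.mem_union_right _ hb)).2)
      have h5 : m s h ∈ V := hF2 _ (fun b hb => by
        rw [hm, hs, hκ]
        exact (hγ' b (Finset.mem_union_left _ hb)).1)
      have h6 : m s h ∈ W := hV12 (show (s, h) ∈ V1 ×ˢ V2 from ⟨h4, hh⟩)
      exact Set.disjoint_left.1 hVW h5 h6
    have hkf : ∀ b, k (idx b) = j (idx (ρ f b)) := by
      intro b
      have h1 : ρ κ b = k (idx b) := by rw [hκ]
      have h2 : ρ μ (ρ f b) = j (idx (ρ f b)) := by rw [hμ]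
      rw [← h1, ← h2, hκμ, hm]
    filter_upwards [hfin {a, ρ f a}]
    rintro h ⟨γ, hγ, hγ'⟩
    have h1 := (hγ' a (by simp)).1
    have h2 := (hγ' (ρ f a) (by simp)).2
    rw [hkf, ← h2] at h1
    exact γ.injective h1
  intro V hV
  rw [mem_nhds_pw] at hV
  obtain ⟨F, hF⟩ := hV
  have : (⋂ a ∈ F, {g : S | ρ g a = ρ f a}) ∈ @nhds S τ f := by
    rw [Filter.biInter_finset_mem]
    exact fun a _ => main a
  refine mem_of_superset this ?_
  intro y hy
  simp only [Set.mem_iInter] at hy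
  exact hF y hy

end Core

end Q202.MinTop
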