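import Mathlib.ModelTheory.Types
import Mathlib.ModelTheory.Satisfiability
import Mathlib.ModelTheory.Encoding
import Mathlib.Order.Ideal
import Mathlib.Data.Finite.Sum
import Mathlib.Data.Finite.Prod
import Mathlib.Data.Finset.Preimage

/-!
# The Ryll-Nardzewski theorem (categorical implies finitely many orbits)

Let `L` be a countable first-order language and `A` a countably infinite `L`-structure such that
every countable structure elementarily equivalent to `A` is isomorphic to `A`.  Then
`Aut(A)` has finitely many orbits on `β → A` for every finite `β`.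
-/

universe u v w w'

open FirstOrder FirstOrder.Language Cardinal

namespace Q202.Ryll

variable {L : Language.{u, v}}

/-- Compactness: a set of formulas finitely satisfiable in `A` is satisfiable in a model of the
complete theory of `A`. -/
theorem exists_model_realize (A : Type w') [L.Structure A] [Nonempty A] {α : Type w}
    (Γ : Set (L.Formula α))
    (h : ∀ Γ0 : Finset (L.Formula α), (Γ0 : Set (L.Formula α)) ⊆ Γ →
      ∃ v : α → A, ∀ φ ∈ Γ0, φ.Realize v) :
    ∃ (M : Theory.ModelType.{u, v, max u v w} (L.completeTheory A)) (v : α → M),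
      ∀ φ ∈ Γ, φ.Realize v := by
  classical
  set T' : L[[α]].Theory :=
    (L.lhomWithConstants α).onTheory (L.completeTheory A) ∪ (Formula.equivSentence '' Γ) with hT'
  have hsat : T'.IsSatisfiable := by
    rw [Theory.isSatisfiable_iff_isFinitelySatisfiable]
    intro T0 hT0
    obtain ⟨v, hv⟩ := h ((T0.image Formula.equivSentence.symm).filter (fun φ => φ ∈ Γ))
      (by intro φ hφ; simp only [Finset.coe_filter, Set.mem_ofPred_eq] at hφ; exact hφ.2)
    let _ : (constantsOn α).Structure A := constantsOn.structure v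
    have : A ⊨ (T0 : L[[α]].Theory) := by
      rw [Theory.model_iff]
      intro φ hφ
      rcases hT0 hφ with h1 | h1
      · have hA : A ⊨ (L.lhomWithConstants α).onTheory (L.completeTheory A) :=
          (LHom.onTheory_model _ _).2 inferInstance
        exact (Theory.model_iff _).1 hA φ h1
      · obtain ⟨ψ, hψ, rfl⟩ := h1
        rw [Formula.realize_equivSentence]
        apply hv
        simp only [Finset.mem_filter, Finset.mem_image]
        exact ⟨⟨_, hφ, by simp⟩, hψ⟩
    exact Theory.Model.isSatisfiable A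
  obtain ⟨M⟩ := hsat
  let _ : L.Structure M := (L.lhomWithConstants α).reduct M
  have hM : M ⊨ L.completeTheory A :=
    (LHom.onTheory_model (L.lhomWithConstants α) _).1
      (Theory.Model.mono M.is_model Set.subset_union_left)
  refine ⟨Theory.ModelType.of (L.completeTheory A) M, fun a => (L.con a : M), ?_⟩
  intro φ hφ
  have h1 : M ⊨ (Formula.equivSentence φ) :=
    (Theory.model_iff _).1 M.is_model _ (Or.inr ⟨φ, hφ, rfl⟩)
  exact (Formula.realize_equivSentence M φ).1 h1

/-- Formulas have finite support. -/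
theorem exists_support {α : Type w} (φ : L.Formula α) :
    ∃ s : Finset α, ∃ ψ : L.Formula s, ∀ (A : Type w') [L.Structure A] (v : α → A),
      ψ.Realize (fun x : s => v x) ↔ φ.Realize v := by
  classical
  refine ⟨BoundedFormula.freeVarFinset φ, BoundedFormula.restrictFreeVar φ id, ?_⟩
  intro A _ v
  exact BoundedFormula.realize_restrictFreeVar v (by intro a; rfl)

theorem realize_congr {α : Type w} (φ : L.Formula α) :
    ∃ s : Finset α, ∀ (A : Type w') [L.Structure A] (v v' : α → A), (∀ x ∈ s, v x = v' x) →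
      (φ.Realize v ↔ φ.Realize v') := by
  obtain ⟨s, ψ, h⟩ := exists_support.{u, v, w, w'} φ
  refine ⟨s, fun A _ v v' hv => ?_⟩
  rw [← h A v, ← h A v']
  have : (fun x : s => v x) = (fun x : s => v' x) := by
    funext x; exact hv x x.2
  rw [this]

section Omit

variable (A : Type w') [L.Structure A]

/-- Conditions: satisfiable formulas. -/
def Cond : Type max u v := {φ : L.Formula ℕ // ∃ v : ℕ → A, φ.Realize v}

instance : Preorder (Cond (L := L) A) where
  le p q := ∀ v : ℕ → A, q.1.Realize v → p.1.Realize v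
  le_refl p := fun v h => h
  le_trans p q r h1 h2 := fun v h => h1 v (h2 v h)

theorem cond_le_def (p q : Cond (L := L) A) :
    p ≤ q ↔ ∀ v : ℕ → A, q.1.Realize v → p.1.Realize v := Iff.rfl

/-- The formula obtained by substituting the variable `n` for the extra variable. -/
def inst (ψ : L.Formula (ℕ ⊕ Unit)) (n : ℕ) : L.Formula ℕ :=
  ψ.relabel (Sum.elim id (fun _ => n))

theorem realize_inst {B : Type*} [L.Structure B] (ψ : L.Formula (ℕ ⊕ Unit)) (n : ℕ) (v : ℕ → B) :
    (inst ψ n).Realize v ↔ ψ.Realize (Sum.elim v (fun _ => v n)) := by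
  unfold inst
  rw [Formula.realize_relabel]
  have : v ∘ (Sum.elim id fun _ => n) = Sum.elim v (fun _ : Unit => v n) := by
    funext x; rcases x with x | x <;> rfl
  rw [this]

/-- Witnessing conditions. -/
def dWit (ψ : L.Formula (ℕ ⊕ Unit)) : Set (Cond (L := L) A) :=
  {p | (∀ v : ℕ → A, p.1.Realize v → (Formula.not (ψ.iExs Unit)).Realize v) ∨
    ∃ n, ∀ v : ℕ → A, p.1.Realize v → (inst ψ n).Realize v}

theorem dWit_cofinal (ψ : L.Formula (ℕ ⊕ Unit)) : IsCofinal (dWit (L := L) A ψ) := by
  classical
  intro p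
  by_cases h : ∃ v : ℕ → A, p.1.Realize v ∧ (ψ.iExs Unit).Realize v
  · obtain ⟨v, hv, hψ⟩ := h
    rw [Formula.realize_iExs] at hψ
    obtain ⟨a, ha⟩ := hψ
    obtain ⟨s, hs⟩ := realize_congr.{u, v, 0, w'} p.1
    obtain ⟨t, ht⟩ := realize_congr.{u, v, 0, w'} ψ
    obtain ⟨n, hn⟩ := Infinite.exists_notMem_finset
      (s ∪ t.preimage Sum.inl Sum.inl_injective.injOn)
    simp only [Finset.mem_union, Finset.mem_preimage, not_or] at hn
    set v' : ℕ → A := Function.update v n (a ()) with hv'
    have hv'1 : p.1.Realize v' := by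
      rw [hs A v' v]
      · exact hv
      · intro x hx
        have : x ≠ n := fun h => hn.1 (h ▸ hx)
        simp [hv', this]
    have hv'2 : (inst ψ n).Realize v' := by
      rw [realize_inst]
      rw [ht A _ (Sum.elim v a)]
      · exact ha
      · intro x hx
        rcases x with x | x
        · have : x ≠ n := fun h => hn.2 (h ▸ hx)
          simp [hv', this]
        · simp [hv']
    refine ⟨⟨p.1 ⊓ inst ψ n, v', ?_⟩, ?_, ?_⟩
    · exact Formula.realize_inf.2 ⟨hv'1, hv'2⟩
    · right
      refine ⟨n, fun v h => (Formula.realize_inf.1 h).2⟩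
    · exact fun v h => (Formula.realize_inf.1 h).1
  · refine ⟨p, Or.inl ?_, le_refl _⟩
    intro v hv
    rw [Formula.realize_not]
    exact fun hh => h ⟨v, hv, hh⟩

variable {β : Type w} (Φ : Set (L.Formula β))

/-- Omitting conditions. -/
def dOmit (σ : β → ℕ) : Set (Cond (L := L) A) :=
  {p | ∃ χ ∈ Φ, ∀ v : ℕ → A, p.1.Realize v → ¬ χ.Realize (v ∘ σ)}

/-- `Φ` is locally omitted in `A`: no satisfiable formula implies all of `Φ`. -/
def LocOmit : Prop := ∀ θ : L.Formula β, (∃ x : β → A, θ.Realize x) →
    ∃ χ ∈ Φ, ∃ x : β → A, θ.Realize x ∧ ¬ χ.Realize x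

theorem exists_projection [Nonempty A] [Finite β] (φ : L.Formula ℕ) (σ : β → ℕ) :
    ∃ θ : L.Formula β, ∀ x : β → A, θ.Realize x ↔ ∃ v : ℕ → A, φ.Realize v ∧ v ∘ σ = x := by
  classical
  obtain ⟨s, ψ, h⟩ := exists_support.{u, v, 0, w'} φ
  have := Fintype.ofFinite β
  set s' : Finset ℕ := s ∪ Finset.univ.image σ with hs'
  have hσ : ∀ i, σ i ∈ s' := fun i => by simp [hs']
  let ψ' : L.Formula (β ⊕ s') :=
    ψ.relabel (fun x => Sum.inr ⟨x.1, Finset.mem_union_left _ x.2⟩)
  let eqs : L.Formula (β ⊕ s') := Formula.iInf (fun i : β =>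
    Term.equal (Term.var (Sum.inl i)) (Term.var (Sum.inr ⟨σ i, hσ i⟩)))
  refine ⟨(ψ' ⊓ eqs).iExs s', fun x => ?_⟩
  rw [Formula.realize_iExs]
  constructor
  · rintro ⟨y, hy⟩
    rw [Formula.realize_inf] at hy
    obtain ⟨h1, h2⟩ := hy
    rw [Formula.realize_relabel] at h1
    rw [Formula.realize_iInf] at h2
    obtain ⟨a0⟩ := (inferInstance : Nonempty A)
    set v : ℕ → A := fun n => if hn : n ∈ s' then y ⟨n, hn⟩ else a0 with hv
    refine ⟨v, ?_, ?_⟩
    · rw [← h A v]
      convert h1 using 1
      funext z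
      have hz : z.1 ∈ s' := Finset.mem_union_left _ z.2
      simp [hv, hz]
    · funext i
      have := h2 i
      rw [Formula.realize_equal] at this
      simp only [Term.realize_var, Sum.elim_inl, Sum.elim_inr] at this
      simp [hv, hσ i, this]
  · rintro ⟨v, hv, rfl⟩
    refine ⟨fun n => v n, ?_⟩
    rw [Formula.realize_inf]
    refine ⟨?_, ?_⟩
    · rw [Formula.realize_relabel]
      exact (h A v).2 hv
    · rw [Formula.realize_iInf]
      intro i
      rw [Formula.realize_equal]
      rfl

theorem dOmit_cofinal [Nonempty A] [Finite β] (hΦ : LocOmit A Φ) (σ : β → ℕ) :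
    IsCofinal (dOmit (L := L) A Φ σ) := by
  classical
  intro p
  obtain ⟨θ, hθ⟩ := exists_projection A p.1 σ
  obtain ⟨v0, hv0⟩ := p.2
  obtain ⟨χ, hχ, x, hx1, hx2⟩ := hΦ θ ⟨v0 ∘ σ, (hθ _).2 ⟨v0, hv0, rfl⟩⟩
  obtain ⟨v, hv, rfl⟩ := (hθ x).1 hx1
  have key : ∀ v : ℕ → A, (Formula.not (χ.relabel σ)).Realize v ↔ ¬ χ.Realize (v ∘ σ) := by
    intro v
    rw [Formula.realize_not, Formula.realize_relabel]
  refine ⟨⟨p.1 ⊓ Formula.not (χ.relabel σ), v, ?_⟩, ?_, ?_⟩
  · exact Formula.realize_inf.2 ⟨hv, (key v).2 hx2⟩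
  · exact ⟨χ, hχ, fun v h => (key v).1 (Formula.realize_inf.1 h).2⟩
  · exact fun v h => (Formula.realize_inf.1 h).1

end Omit

/-- **Omitting types.** -/
theorem omit_types [Countable L.Symbols] (A : Type w') [L.Structure A] [Nonempty A] {β : Type w}
    [Finite β] (Φ : Set (L.Formula β)) (hΦ : LocOmit A Φ) :
    ∃ (M : Type (max u v)) (_ : L.Structure M) (_ : Countable M),
      (A ≅[L] M) ∧ ∀ x : β → M, ∃ χ ∈ Φ, ¬ χ.Realize x := by
  classical
  have hcβ : Countable β := Finite.to_countable
  have hcσ : Countable (β → ℕ) := inferInstance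
  have hcF : Countable (L.Formula (ℕ ⊕ Unit)) := inferInstance
  let ι := L.Formula (ℕ ⊕ Unit) ⊕ (β → ℕ)
  have hι : Countable ι := inferInstance
  let _ : Encodable ι := Encodable.ofCountable ι
  let D : ι → Order.Cofinal (Cond (L := L) A) := fun i =>
    Sum.elim (fun ψ => ⟨dWit A ψ, dWit_cofinal A ψ⟩)
      (fun σ => ⟨dOmit A Φ σ, dOmit_cofinal A Φ hΦ σ⟩) i
  obtain ⟨a0⟩ := (inferInstance : Nonempty A)
  let p0 : Cond (L := L) A := ⟨⊤, fun _ => a0, by simp⟩
  let I := Order.idealOfCofinals p0 D
  have hI := Order.cofinal_meets_idealOfCofinals p0 D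
  obtain ⟨M, v, hv⟩ := exists_model_realize A {φ : L.Formula ℕ | ∃ p : Cond (L := L) A, p ∈ I ∧ p.1 = φ}
    (by
      intro Γ0 hΓ0
      have : ∃ q ∈ I, ∀ φ ∈ Γ0, ∀ v : ℕ → A, q.1.Realize v → φ.Realize v := by
        induction Γ0 using Finset.induction_on with
        | empty => exact ⟨p0, Order.mem_idealOfCofinals p0 D, by simp⟩
        | insert φ Γ0 hφ ih =>
          obtain ⟨q, hq, hq'⟩ := ih (by
            intro ψ hψ
            exact hΓ0 (by simp only [Finset.coe_insert, Set.mem_insert_iff]; exact Or.inr hψ))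
          obtain ⟨p, hp, hpφ⟩ := hΓ0 (show φ ∈ ((insert φ Γ0 : Finset _) : Set _) by simp)
          obtain ⟨r, hr, hr1, hr2⟩ := I.directed p hp q hq
          refine ⟨r, hr, ?_⟩
          intro ψ hψ v hv
          rcases Finset.mem_insert.1 hψ with rfl | hψ
          · rw [← hpφ]
            exact hr1 v hv
          · exact hq' ψ hψ v (hr2 v hv)
      obtain ⟨q, hq, hq'⟩ := this
      obtain ⟨v, hv⟩ := q.2
      exact ⟨v, fun φ hφ => hq' φ hφ v hv⟩)
  -- every formula implied by a condition in the generic ideal is true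
  have hlow : ∀ p ∈ I, ∀ φ : L.Formula ℕ, (∀ w : ℕ → A, p.1.Realize w → φ.Realize w) →
      φ.Realize v := by
    intro p hp φ hφ
    obtain ⟨w, hw⟩ := p.2
    let q : Cond (L := L) A := ⟨φ, w, hφ w hw⟩
    exact hv φ ⟨q, I.lower (show q ≤ p from hφ) hp, rfl⟩
  have hmeets : L.MeetsDefinable (Set.range v) := by
    rintro Dd ⟨x, hx⟩ hD
    obtain ⟨φ, hφ⟩ := hD
    -- turn the parameters into variables
    let φ1 : L.Formula (Set.range v ⊕ Fin 1) := BoundedFormula.constantsVarsEquiv φ
    have hφ1 : ∀ y : Fin 1 → M, φ1.Realize (Sum.elim (fun a : Set.range v => (a : M)) y) ↔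
        φ.Realize y := by
      intro y
      exact BoundedFormula.realize_constantsVarsEquiv (L := L) (α := Set.range v) (M := M)
        (φ := φ) (v := y) (xs := default)
    let f : Set.range v → ℕ := fun a => a.2.choose
    have hf : ∀ a : Set.range v, v (f a) = a := fun a => a.2.choose_spec
    let ψ : L.Formula (ℕ ⊕ Unit) := φ1.relabel (Sum.map f (fun _ => ()))
    have hψ : ∀ y : M, ψ.Realize (Sum.elim v (fun _ => y)) ↔ φ.Realize (fun _ => y) := by
      intro y
      rw [Formula.realize_relabel, ← hφ1]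
      have : (Sum.elim v fun _ => y) ∘ Sum.map f (fun _ : Fin 1 => ()) =
          Sum.elim (fun a : Set.range v => (a : M)) (fun _ => y) := by
        funext z; rcases z with z | z
        · exact hf z
        · rfl
      rw [this]
    obtain ⟨p, hpD, hpI⟩ := hI (Sum.inl ψ)
    have hx' : φ.Realize (fun _ => x) := by
      have h1 : (fun _ : Fin 1 => x) ∈ Set.ofPred φ.Realize := by
        rw [← hφ]
        exact hx
      exact h1
    rcases hpD with hp | ⟨n, hp⟩
    · exfalso
      have h1 := hlow p hpI _ hp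
      rw [Formula.realize_not, Formula.realize_iExs] at h1
      exact h1 ⟨fun _ => x, (hψ x).2 hx'⟩
    · have h1 := hlow p hpI _ hp
      rw [realize_inst, hψ] at h1
      refine ⟨v n, ?_, ⟨n, rfl⟩⟩
      have h2 : (fun _ : Fin 1 => v n) ∈ Set.ofPred φ.Realize := h1
      rw [← hφ] at h2
      exact h2
  let S := hmeets.toElementarySubstructure
  have hS : ∀ x : S, ∃ n, v n = (x : M) := by
    intro x
    have h1 : (x : M) ∈ (Substructure.closure L (Set.range v) : Set M) := x.2
    rw [hmeets.closure_eq_self] at h1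
    exact h1
  refine ⟨S, inferInstance, ?_, ?_, ?_⟩
  · choose f hf using hS
    have : Function.Injective f := by
      intro x y hxy
      apply Subtype.ext
      rw [← hf x, ← hf y, hxy]
    exact this.countable
  · have h1 : A ≅[L] M := by
      have : M ⊨ L.completeTheory A := M.is_model
      rw [elementarilyEquivalent_iff]
      intro φ
      exact (realize_iff_of_model_completeTheory A M φ).symm
    exact h1.trans S.elementarilyEquivalent.symm
  · intro x
    choose f hf using hS
    obtain ⟨p, hpD, hpI⟩ := hI (Sum.inr (fun i => f (x i)))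
    obtain ⟨χ, hχ, hp⟩ := hpD
    refine ⟨χ, hχ, ?_⟩
    have h1 := hlow p hpI (Formula.not (χ.relabel (fun i => f (x i)))) (by
      intro w hw
      rw [Formula.realize_not, Formula.realize_relabel]
      exact hp w hw)
    rw [Formula.realize_not, Formula.realize_relabel] at h1
    intro h2
    apply h1
    rw [← S.subtype.map_formula] at h2
    convert h2 using 1
    funext i
    exact hf (x i)

/-- `A` is the only countable model of its complete theory (in its universe), up to
isomorphism. -/
def OmegaCat (L : Language.{u, v}) (A : Type w) [L.Structure A] : Prop :=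
  ∀ (B : Type w) [L.Structure B], Countable B → (A ≅[L] B) → Nonempty (A ≃[L] B)

theorem OmegaCat.equiv {A : Type w} [L.Structure A] (h : OmegaCat L A) {B : Type w'}
    [L.Structure B] [Countable B] (hAB : A ≅[L] B) : Nonempty (A ≃[L] B) := by
  obtain ⟨B', ⟨e⟩⟩ : ∃ B' : Type w, Nonempty (B ≃ B') := by
    obtain ⟨f, hf⟩ := exists_injective_nat B
    refine ⟨ULift.{w} (Set.range f), ⟨(Equiv.ofInjective f hf).trans Equiv.ulift.symm⟩⟩
  have e' := e.bundledInducedEquiv L
  have hc : Countable (e.bundledInduced L) := e.symm.injective.countable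
  obtain ⟨g⟩ := h (e.bundledInduced L) hc (hAB.trans e'.toElementaryEmbedding.elementarilyEquivalent)
  exact ⟨e'.symm.comp g⟩

theorem omegaCat_of_categorical {A : Type w} [L.Structure A] [Countable A] [Infinite A]
    (h : Cardinal.Categorical.{u, v, w} ℵ₀ (L.completeTheory A)) : OmegaCat L A := by
  intro B _ hB hAB
  have hBi : Infinite B := hAB.infinite
  have : B ⊨ L.completeTheory A := hAB.theory_model
  exact h (Theory.ModelType.of _ A) (Theory.ModelType.of _ B) (Cardinal.mk_eq_aleph0 A)
    (Cardinal.mk_eq_aleph0 B)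

section RN

variable [Countable L.Symbols] {A : Type w} [L.Structure A] [Nonempty A]

/-- `θ` isolates the type of `a`. -/
def Isolates {β : Type w'} (θ : L.Formula β) (a : β → A) : Prop :=
  θ.Realize a ∧ ∀ b : β → A, θ.Realize b → ∀ χ : L.Formula β, χ.Realize a ↔ χ.Realize b

/-- Every tuple has an isolated type. -/
theorem exists_isolates (h : OmegaCat L A) {β : Type w'} [Finite β] (a : β → A) :
    ∃ θ : L.Formula β, Isolates θ a := by
  by_contra hcon
  push Not at hcon
  have hloc : LocOmit A {χ : L.Formula β | χ.Realize a} := by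
    rintro θ ⟨x, hx⟩
    by_cases ha : θ.Realize a
    · have h1 := hcon θ
      unfold Isolates at h1
      push Not at h1
      obtain ⟨b, hb, χ, hχ⟩ := h1 ha
      rcases hχ with ⟨h2, h3⟩ | ⟨h2, h3⟩
      · exact ⟨χ, h2, b, hb, h3⟩
      · exact ⟨Formula.not χ, by simpa using h2, b, hb, by simpa using h3⟩
    · exact ⟨Formula.not θ, by simpa using ha, x, hx, by simpa using hx⟩
  obtain ⟨M, _, _, hAM, hM⟩ := omit_types A {χ : L.Formula β | χ.Realize a} hloc
  obtain ⟨g⟩ := h.equiv hAM
  obtain ⟨χ, hχ, hχ'⟩ := hM (g ∘ a)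
  apply hχ'
  exact (g.toElementaryEmbedding.map_formula χ a).2 hχ

/-- One step of the back-and-forth. -/
theorem ext_step (h : OmegaCat L A) {β : Type w'} [Finite β] (x y : β → A)
    (hxy : ∀ φ : L.Formula β, φ.Realize x ↔ φ.Realize y) (a : A) :
    ∃ b : A, ∀ φ : L.Formula (β ⊕ Unit),
      φ.Realize (Sum.elim x (fun _ => a)) ↔ φ.Realize (Sum.elim y (fun _ => b)) := by
  obtain ⟨θ, hθ1, hθ2⟩ := exists_isolates h (Sum.elim x (fun _ : Unit => a))
  have h1 : (θ.iExs Unit).Realize x := by
    rw [Formula.realize_iExs]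
    exact ⟨_, hθ1⟩
  rw [hxy, Formula.realize_iExs] at h1
  obtain ⟨b, hb⟩ := h1
  refine ⟨b (), fun φ => ?_⟩
  exact hθ2 _ hb φ

/-- Finite elementary maps. -/
def PE (L : Language.{u, v}) (A : Type w) [L.Structure A] : Type w :=
  {f : Finset (A × A) // ∀ φ : L.Formula f,
    φ.Realize (fun x : f => x.1.1) ↔ φ.Realize (fun x : f => x.1.2)}

instance : Preorder (PE L A) where
  le p q := p.1 ⊆ q.1
  le_refl p := Finset.Subset.refl _
  le_trans p q r h1 h2 := Finset.Subset.trans h1 h2

omit [Countable L.Symbols] [Nonempty A] in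
theorem PE.insert (f : PE L A) (a b : A) (hab : ∀ φ : L.Formula (f.1 ⊕ Unit),
      φ.Realize (Sum.elim (fun x : f.1 => x.1.1) (fun _ => a)) ↔
        φ.Realize (Sum.elim (fun x : f.1 => x.1.2) (fun _ => b))) :
    ∃ g : PE L A, f ≤ g ∧ (a, b) ∈ g.1 := by
  classical
  refine ⟨⟨Insert.insert (a, b) f.1, ?_⟩, ?_, ?_⟩
  · intro φ
    let r : (Insert.insert (a, b) f.1 : Finset (A × A)) → f.1 ⊕ Unit :=
      fun x => if hx : x.1 ∈ f.1 then Sum.inl ⟨x.1, hx⟩ else Sum.inr ()
    have h1 := hab (φ.relabel r)
    rw [Formula.realize_relabel, Formula.realize_relabel] at h1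
    have h2 : (Sum.elim (fun x : f.1 => x.1.1) (fun _ => a)) ∘ r =
        (fun x : (Insert.insert (a, b) f.1 : Finset (A × A)) => x.1.1) := by
      funext x
      by_cases hx : x.1 ∈ f.1
      · simp [r, hx]
      · have : x.1 = (a, b) := (Finset.mem_insert.1 x.2).resolve_right hx
        simp only [Function.comp, r, hx, dite_false, Sum.elim_inr]
        rw [this]
    have h3 : (Sum.elim (fun x : f.1 => x.1.2) (fun _ => b)) ∘ r =
        (fun x : (Insert.insert (a, b) f.1 : Finset (A × A)) => x.1.2) := by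
      funext x
      by_cases hx : x.1 ∈ f.1
      · simp [r, hx]
      · have : x.1 = (a, b) := (Finset.mem_insert.1 x.2).resolve_right hx
        simp only [Function.comp, r, hx, dite_false, Sum.elim_inr]
        rw [this]
    rw [h2, h3] at h1
    exact h1
  · exact Finset.subset_insert _ _
  · exact Finset.mem_insert_self _ _

/-- Tuples of the same type in an omega-categorical countable structure are conjugate. -/
theorem exists_aut [Countable A] (h : OmegaCat L A) {β : Type w'} [Finite β] (x y : β → A)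
    (hxy : ∀ φ : L.Formula β, φ.Realize x ↔ φ.Realize y) :
    ∃ g : A ≃[L] A, ∀ i, g (x i) = y i := by
  classical
  have := Fintype.ofFinite β
  -- the starting condition
  have hp0 : ∀ φ : L.Formula (Finset.univ.image (fun i => (x i, y i)) : Finset (A × A)),
      φ.Realize (fun z => z.1.1) ↔ φ.Realize (fun z => z.1.2) := by
    intro φ
    have hr : ∀ z : (Finset.univ.image (fun i => (x i, y i)) : Finset (A × A)),
        ∃ i, (x i, y i) = z.1 := by
      intro z
      obtain ⟨i, _, hi⟩ := Finset.mem_image.1 z.2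
      exact ⟨i, hi⟩
    choose r hr using hr
    have h1 := hxy (φ.relabel r)
    rw [Formula.realize_relabel, Formula.realize_relabel] at h1
    convert h1 using 2
    · funext z
      simp only [Function.comp]
      rw [← hr z]
    · funext z
      simp only [Function.comp]
      rw [← hr z]
  let p0 : PE L A := ⟨_, hp0⟩
  let _ : Encodable (A ⊕ A) := Encodable.ofCountable _
  let D : A ⊕ A → Order.Cofinal (PE L A) := fun i =>
    Sum.elim (fun a => ⟨{f | ∃ b, (a, b) ∈ f.1}, by
        intro f
        obtain ⟨b, hb⟩ := ext_step h _ _ f.2 a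
        obtain ⟨g, hfg, hg⟩ := PE.insert f a b hb
        exact ⟨g, ⟨b, hg⟩, hfg⟩⟩)
      (fun b => ⟨{f | ∃ a, (a, b) ∈ f.1}, by
        intro f
        obtain ⟨a, ha⟩ := ext_step h _ _ (fun φ => (f.2 φ).symm) b
        obtain ⟨g, hfg, hg⟩ := PE.insert f a b (fun φ => (ha φ).symm)
        exact ⟨g, ⟨a, hg⟩, hfg⟩⟩) i
  let I := Order.idealOfCofinals p0 D
  have hI := Order.cofinal_meets_idealOfCofinals p0 D
  -- the graph
  let R : A → A → Prop := fun a b => ∃ f ∈ I, (a, b) ∈ f.1
  have hdir : ∀ s : Finset (A × A), (∀ z ∈ s, R z.1 z.2) → ∃ f ∈ I, s ⊆ f.1 := by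
    intro s
    induction s using Finset.induction_on with
    | empty => intro _; exact ⟨p0, Order.mem_idealOfCofinals p0 D, by simp⟩
    | insert z s hz ih =>
      intro hs
      obtain ⟨f, hf, hsf⟩ := ih (fun w hw => hs w (Finset.mem_insert_of_mem hw))
      obtain ⟨g, hg, hzg⟩ := hs z (Finset.mem_insert_self _ _)
      obtain ⟨r, hr, hr1, hr2⟩ := I.directed f hf g hg
      refine ⟨r, hr, ?_⟩
      intro w hw
      rcases Finset.mem_insert.1 hw with rfl | hw
      · exact hr2 hzg
      · exact hr1 (hsf hw)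
  have hform : ∀ {γ : Type} [Finite γ] (a b : γ → A), (∀ i, R (a i) (b i)) →
      ∀ φ : L.Formula γ, φ.Realize a ↔ φ.Realize b := by
    intro γ _ a b hab φ
    have := Fintype.ofFinite γ
    obtain ⟨f, hf, hfs⟩ := hdir (Finset.univ.image (fun i => (a i, b i))) (by
      intro z hz
      obtain ⟨i, _, rfl⟩ := Finset.mem_image.1 hz
      exact hab i)
    have hmem : ∀ i, (a i, b i) ∈ f.1 := fun i =>
      hfs (Finset.mem_image.2 ⟨i, Finset.mem_univ _, rfl⟩)
    have h1 := f.2 (φ.relabel (fun i => ⟨(a i, b i), hmem i⟩))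
    rw [Formula.realize_relabel, Formula.realize_relabel] at h1
    exact h1
  have hfun : ∀ a b b', R a b → R a b' → b = b' := by
    intro a b b' h1 h2
    have := hform (γ := Bool) (fun _ => a) (fun i => if i then b else b')
      (by intro i; cases i <;> simp [h1, h2])
      (Term.equal (Term.var true) (Term.var false))
    rw [Formula.realize_equal, Formula.realize_equal] at this
    simpa using this
  have hinj : ∀ a a' b, R a b → R a' b → a = a' := by
    intro a a' b h1 h2
    have := hform (γ := Bool) (fun i => if i then a else a') (fun _ => b)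
      (by intro i; cases i <;> simp [h1, h2])
      (Term.equal (Term.var true) (Term.var false))
    rw [Formula.realize_equal, Formula.realize_equal] at this
    simpa using this
  have hleft : ∀ a, ∃ b, R a b := by
    intro a
    obtain ⟨f, ⟨b, hb⟩, hf⟩ := hI (Sum.inl a)
    exact ⟨b, f, hf, hb⟩
  have hright : ∀ b, ∃ a, R a b := by
    intro b
    obtain ⟨f, ⟨a, ha⟩, hf⟩ := hI (Sum.inr b)
    exact ⟨a, f, hf, ha⟩
  choose g hg using hleft
  choose g' hg' using hright
  let e : A ≃ A := ⟨g, g', fun a => hinj _ _ _ (hg' _) (hg a), fun b => hfun _ _ _ (hg _) (hg' b)⟩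
  refine ⟨⟨e, ?_, ?_⟩, ?_⟩
  · intro n F z
    have := hform (γ := Fin n ⊕ Unit) (Sum.elim z (fun _ => Structure.funMap F z))
      (fun i => g ((Sum.elim z (fun _ => Structure.funMap F z)) i)) (fun i => hg _)
      (Term.equal (Term.func F (fun i => Term.var (Sum.inl i))) (Term.var (Sum.inr ())))
    rw [Formula.realize_equal, Formula.realize_equal] at this
    simp only [Term.realize_func, Term.realize_var, Sum.elim_inl, Sum.elim_inr, true_iff] at this
    exact this.symm
  · intro n F z
    have := hform (γ := Fin n) z (fun i => g (z i)) (fun i => hg _)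
      (F.formula (fun i => Term.var i))
    rw [Formula.realize_rel, Formula.realize_rel] at this
    simp only [Term.realize_var] at this
    exact this.symm
  · intro i
    apply hfun (x i) _ _ (hg _)
    exact ⟨p0, Order.mem_idealOfCofinals p0 D, Finset.mem_image.2 ⟨i, Finset.mem_univ _, rfl⟩⟩

/-- **Ryll-Nardzewski**: the automorphism group has finitely many orbits on finite tuples. -/
theorem finite_orbits [Countable A] [Infinite A] (h : OmegaCat L A) (β : Type w') [Finite β] :
    ∃ s : Set (β → A), s.Finite ∧ ∀ y : β → A, ∃ x ∈ s, ∃ g : A ≃[L] A, ∀ i, g (x i) = y i := by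
  classical
  -- finitely many isolating formulas cover everything
  have key : ∃ F : Finset (L.Formula β), (∀ θ ∈ F, ∃ a : β → A, Isolates θ a) ∧
      ∀ y : β → A, ∃ θ ∈ F, θ.Realize y := by
    by_contra hcon
    push Not at hcon
    obtain ⟨M, v, hv⟩ := exists_model_realize A
      {φ : L.Formula β | ∃ θ : L.Formula β, (∃ a : β → A, Isolates θ a) ∧ φ = Formula.not θ} (by
        intro Γ0 hΓ0
        choose! f hf using hΓ0
        obtain ⟨y, hy⟩ := hcon (Γ0.image f) (by
          intro θ hθ
          obtain ⟨φ, hφ, rfl⟩ := Finset.mem_image.1 hθ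
          exact (hf hφ).1)
        refine ⟨y, fun φ hφ => ?_⟩
        rw [(hf hφ).2, Formula.realize_not]
        exact hy _ (Finset.mem_image_of_mem _ hφ))
    have hAM : A ≅[L] M := by
      have : M ⊨ L.completeTheory A := M.is_model
      rw [elementarilyEquivalent_iff]
      intro φ
      exact (realize_iff_of_model_completeTheory A M φ).symm
    have hMi : Infinite M := hAM.infinite
    obtain ⟨S, hS1, hS2⟩ := exists_elementarySubstructure_card_eq L (Set.range v)
      (ℵ₀ : Cardinal.{0}) le_rfl
      (by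
        rw [Cardinal.lift_aleph0, Cardinal.lift_le_aleph0]
        exact (Set.countable_range v).le_aleph0)
      (by
        rw [Cardinal.lift_aleph0, Cardinal.lift_le_aleph0]
        exact Cardinal.mk_le_aleph0)
      (by
        rw [Cardinal.lift_aleph0, Cardinal.aleph0_le_lift]
        exact Cardinal.aleph0_le_mk M)
    rw [Cardinal.lift_aleph0, Cardinal.lift_eq_aleph0] at hS2
    have hSc : Countable S := Cardinal.mk_le_aleph0_iff.1 hS2.le
    obtain ⟨g⟩ := h.equiv (hAM.trans S.elementarilyEquivalent.symm)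
    let w : β → S := fun i => ⟨v i, hS1 ⟨i, rfl⟩⟩
    obtain ⟨θ, hθ⟩ := exists_isolates h (fun i => g.symm (w i))
    have h1 := hv (Formula.not θ) ⟨θ, ⟨_, hθ⟩, rfl⟩
    rw [Formula.realize_not] at h1
    apply h1
    have h2 : θ.Realize w := by
      have := (g.toElementaryEmbedding.map_formula θ (fun i => g.symm (w i))).2 hθ.1
      convert this using 1
      funext i
      simp
    have h3 := (S.subtype.map_formula θ w).2 h2
    exact h3
  obtain ⟨F, hF1, hF2⟩ := key
  choose! a ha using hF1
  refine ⟨a '' (F : Set (L.Formula β)), F.finite_toSet.image _, fun y => ?_⟩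
  obtain ⟨θ, hθ, hy⟩ := hF2 y
  refine ⟨a θ, ⟨θ, hθ, rfl⟩, ?_⟩
  exact exists_aut h _ _ (fun φ => (ha θ hθ).2 y hy φ)

end RN

end Q202.Ryll
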