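import Mathlib.ModelTheory.Fraisse
import Mathlib.GroupTheory.GroupAction.Defs
import Mathlib.Algebra.Group.Action.Pi
import Mathlib.Algebra.Group.Subgroup.Actions
import Mathlib.Algebra.Group.Action.End

/-!
# The canonical (orbit) structure of a permutation group

Given a subgroup `G` of the symmetric group of `M`, the language `orbLang G` has one `n`-ary
relation symbol for each orbit of `G` on `n`-tuples.  `M` becomes an ultrahomogeneous structure.
-/

namespace Q202.Orb

open FirstOrder FirstOrder.Language

variable {M : Type} (G : Subgroup (Equiv.Perm M))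

/-- The orbit of an `n`-tuple. -/
def orb {n : ℕ} (x : Fin n → M) : Quotient (MulAction.orbitRel G (Fin n → M)) := Quotient.mk _ x

theorem orb_eq_iff {n : ℕ} (x y : Fin n → M) :
    orb G x = orb G y ↔ ∃ g ∈ G, ∀ i, g (y i) = x i := by
  unfold orb
  rw [Quotient.eq, MulAction.orbitRel_apply]
  constructor
  · rintro ⟨g, hg⟩
    refine ⟨g.1, g.2, fun i => ?_⟩
    rw [← hg]; rfl
  · rintro ⟨g, hg, h⟩
    exact ⟨⟨g, hg⟩, funext h⟩

/-- The relational language with one `n`-ary relation symbol for each orbit of `G` on
`n`-tuples. -/
def orbLang : Language.{0, 0} :=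
  ⟨fun _ => Empty, fun n => Quotient (MulAction.orbitRel G (Fin n → M))⟩

instance : (orbLang G).IsRelational := fun _ => inferInstanceAs (IsEmpty Empty)

instance [Countable M] : Countable (orbLang G).Symbols := by
  have h1 : Countable (Σ n, (orbLang G).Functions n) := by
    have : ∀ n, Countable ((orbLang G).Functions n) := fun n => inferInstanceAs (Countable Empty)
    infer_instance
  have h2 : Countable (Σ n, (orbLang G).Relations n) := by
    have : ∀ n, Countable ((orbLang G).Relations n) := fun n =>
      inferInstanceAs (Countable (Quotient (MulAction.orbitRel G (Fin n → M))))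
    infer_instance
  exact inferInstanceAs (Countable ((Σ n, (orbLang G).Functions n) ⊕ (Σ n, (orbLang G).Relations n)))

/-- The canonical structure on `M`: each symbol is interpreted by the orbit it names. -/
instance orbStr : (orbLang G).Structure M where
  funMap := fun f => nomatch f
  RelMap := fun r x => orb G x = r

theorem relMap_iff {n : ℕ} (r : (orbLang G).Relations n) (x : Fin n → M) :
    Structure.RelMap r x ↔ orb G x = r := Iff.rfl

/-- Elements of `G` are automorphisms. -/
def toAut (g : Equiv.Perm M) (hg : g ∈ G) : M ≃[orbLang G] M where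
  toEquiv := g
  map_fun' := fun f => nomatch f
  map_rel' := by
    intro n r x
    rw [relMap_iff, relMap_iff]
    have : orb G (g ∘ x) = orb G x := (orb_eq_iff G _ _).2 ⟨g, hg, fun i => rfl⟩
    change orb G (g ∘ x) = r ↔ _
    rw [this]

@[simp] theorem toAut_apply (g : Equiv.Perm M) (hg : g ∈ G) (x : M) : toAut G g hg x = g x := rfl

/-- Partial isomorphisms on finite substructures are restrictions of elements of `G`. -/
theorem exists_extend (S : (orbLang G).Substructure M) [Finite S] (f : S ↪[orbLang G] M) :
    ∃ g ∈ G, ∀ s : S, g s = f s := by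
  obtain ⟨n, ⟨e⟩⟩ := Finite.exists_equiv_fin S
  have h1 : Structure.RelMap (L := orbLang G) (M := M)
      (orb G (fun i => ((e.symm i : S) : M))) (fun i => ((e.symm i : S) : M)) := rfl
  have h2 : Structure.RelMap (L := orbLang G) (M := S)
      (orb G (fun i => ((e.symm i : S) : M))) (fun i => e.symm i) := h1
  have h3 := (f.map_rel _ _).2 h2
  have h4 : orb G (f ∘ fun i => e.symm i) = orb G (fun i => ((e.symm i : S) : M)) := h3
  rw [orb_eq_iff] at h4
  obtain ⟨g, hg, h⟩ := h4
  refine ⟨g, hg, fun s => ?_⟩
  have := h (e s)
  simpa using this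

theorem ultrahomogeneous : (orbLang G).IsUltrahomogeneous M := by
  intro S hS f
  have hfin : Finite S := by
    obtain ⟨t, ht⟩ := hS
    have h2 : ((Substructure.closure (orbLang G) (t : Set M) : (orbLang G).Substructure M) : Set M)
        = (t : Set M) := by
      rw [Substructure.closure_eq_of_isRelational]
    rw [ht] at h2
    have h3 : (S : Set M).Finite := by rw [h2]; exact t.finite_toSet
    exact h3
  obtain ⟨g, hg, h⟩ := exists_extend G S f
  refine ⟨toAut G g hg, ?_⟩
  ext s
  exact (h s).symm

/-- Elements of closed groups: an automorphism acts on each finite tuple like an element of `G`. -/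
theorem aut_local (h : M ≃[orbLang G] M) {n : ℕ} (x : Fin n → M) :
    ∃ g ∈ G, ∀ i, g (x i) = h (x i) := by
  have h1 : Structure.RelMap (L := orbLang G) (M := M) (orb G x) x := rfl
  have h2 := (h.map_rel _ _).2 h1
  have h3 : orb G (h ∘ x) = orb G x := h2
  rw [orb_eq_iff] at h3
  exact h3

end Q202.Orb
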